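import Mathlib
import Pool.Agent.V11278.Density

/-!
# The entropy function of the words `110` and `001` is not analytic

For `W = (110, 001)` the point `(1/8, 1/8)` is interior to the feasibility set, and the entropy function
has a corner there.
-/

set_option autoImplicit false

namespace Pool.Agent.Results.MP_8f0a23_co.NotAnalytic

open MeasureTheory Set Pool.Agent.V11278.Density

/-- The entropy of the measure `f dx` on `[0, 1]`. -/
noncomputable def entropy (f : ℝ → ℝ) : ℝ := ∫ x in (0 : ℝ)..1, Real.binEntropy (f x)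

/-- The entropy function of a list of words. -/
noncomputable def entropyFun (W : List (List Bool)) (δ : Fin W.length → ℝ) : ℝ :=
  sSup {e | ∃ f, IsDensity f ∧ (∀ i, rho (W.get i) f = δ i) ∧ e = entropy f}

/-! ### The densities -/

lemma rho_110 {f : ℝ → ℝ} (hf : IsDensity f) :
    rho [true, true, false] f = 3 * (∫ x in (0 : ℝ)..1, cdf f x ^ 2) - cdf f 1 ^ 3 := by
  have hc := cdf_continuous hf
  set Γ : ℝ → ℝ := fun x => 1 - x - cdf f 1 + cdf f x with hΓ
  have hΓc : Continuous Γ := by
    rw [hΓ]; fun_prop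
  have h1 : Psi f [true, false] = fun x => ∫ y in x..1, f y * Γ y := by
    funext x
    rw [Psi]
    apply intervalIntegral.integral_congr
    intro y _
    simp only [letter, if_true]
    rw [Psi_zero hf]
  have h2 : Psi f [true, true, false] 0 = ∫ x in (0 : ℝ)..1, cdf f x * (f x * Γ x) := by
    rw [Psi, h1]
    have h3 : ∫ x in (0 : ℝ)..1, letter f true x * ∫ y in x..1, f y * Γ y =
        ∫ x in (0 : ℝ)..1, f x * ∫ y in x..1, f y * Γ y := by
      apply intervalIntegral.integral_congr
      intro y _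
      simp only [letter, if_true]
    rw [h3]
    exact swap hf ((hf.intervalIntegrable 0 1).mul_continuousOn hΓc.continuousOn)
  have hΓac : AbsolutelyContinuousOnInterval Γ 0 1 :=
    (((const_ac 1 0 1).fun_sub (id_ac 0 1)).fun_sub (const_ac (cdf f 1) 0 1)).fun_add (cdf_ac hf)
  have h4 : ∫ x in (0 : ℝ)..1, (cdf f x * (f x * Γ x) - cdf f x ^ 2 / 2) =
      (cdf f 1 * cdf f 1 * Γ 1 * (1 / 2) - cdf f 1 * cdf f 1 * cdf f 1 * (1 / 6)) -
      (cdf f 0 * cdf f 0 * Γ 0 * (1 / 2) - cdf f 0 * cdf f 0 * cdf f 0 * (1 / 6)) := by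
    refine ftc (Φ := fun x => cdf f x * cdf f x * Γ x * (1 / 2) -
      cdf f x * cdf f x * cdf f x * (1 / 6)) ?_ ?_
    · exact ((((cdf_ac hf).fun_mul (cdf_ac hf)).fun_mul hΓac).fun_mul (const_ac _ 0 1)).fun_sub
        ((((cdf_ac hf).fun_mul (cdf_ac hf)).fun_mul (cdf_ac hf)).fun_mul (const_ac _ 0 1))
    · filter_upwards [cdf_deriv hf] with x hx hx'
      have hF := hx hx'
      have hG : HasDerivAt Γ (0 - 1 - 0 + f x) x :=
        (((hasDerivAt_const x (1 : ℝ)).sub (hasDerivAt_id x)).sub
          (hasDerivAt_const x (cdf f 1))).add hF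
      have := (((hF.mul hF).mul hG).mul_const (1 / 2 : ℝ)).sub
        (((hF.mul hF).mul hF).mul_const (1 / 6 : ℝ))
      refine this.congr_deriv ?_
      simp only [Pi.mul_apply]
      ring
  have hΓ1 : Γ 1 = 0 := by simp [hΓ]
  rw [hΓ1, cdf_zero] at h4
  have i1 : IntervalIntegrable (fun x => cdf f x * (f x * Γ x)) volume 0 1 :=
    ((hf.intervalIntegrable 0 1).mul_continuousOn hΓc.continuousOn).continuousOn_mul
      hc.continuousOn
  have i2 : IntervalIntegrable (fun x => cdf f x ^ 2 / 2) volume 0 1 :=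
    Continuous.intervalIntegrable (by fun_prop) _ _
  rw [intervalIntegral.integral_sub i1 i2, intervalIntegral.integral_div] at h4
  unfold rho
  rw [h2]
  simp only [List.length_cons, List.length_nil, Nat.reduceAdd, Nat.factorial, Nat.succ_eq_add_one,
    Nat.cast_mul, Nat.cast_ofNat, Nat.cast_one]
  norm_num
  linarith

lemma Psi_compl {f : ℝ → ℝ} (w : List Bool) : Psi (fun x => 1 - f x) (w.map (! ·)) = Psi f w := by
  induction w with
  | nil => rfl
  | cons a w ih =>
    funext t
    rw [List.map_cons, Psi, Psi, ih]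
    apply intervalIntegral.integral_congr
    intro x _
    cases a <;> simp [letter]

lemma rho_001 {f : ℝ → ℝ} (hf : IsDensity f) :
    rho [false, false, true] f =
      3 * (∫ x in (0 : ℝ)..1, (x - cdf f x) ^ 2) - (1 - cdf f 1) ^ 3 := by
  have h := rho_110 (compl_isDensity hf)
  have h1 : rho [true, true, false] (fun x => 1 - f x) = rho [false, false, true] f := by
    unfold rho
    rw [← Psi_compl (f := f) [false, false, true]]
    rfl
  rw [← h1, h]
  simp only [cdf_compl hf]

/-! ### The upper bound for the entropy -/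

lemma binEntropy_le {p : ℝ} (h0 : 0 ≤ p) (h1 : p ≤ 1) :
    Real.binEntropy p ≤ Real.log 2 - 2 * (p - 1 / 2) ^ 2 := by
  have hd1 : ∀ x ∈ Ioo (0 : ℝ) 1, HasDerivAt (fun q : ℝ => Real.binEntropy q + 2 * (q - 1 / 2) ^ 2)
      (Real.log (1 - x) - Real.log x + 4 * (x - 1 / 2)) x := by
    intro x hx
    have e1 := Real.hasDerivAt_binEntropy hx.1.ne' hx.2.ne
    have e2 : HasDerivAt (fun q : ℝ => 2 * (q - 1 / 2) ^ 2) (4 * (x - 1 / 2)) x := by
      have := (((hasDerivAt_id x).sub_const (1 / 2 : ℝ)).pow 2).const_mul 2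
      refine this.congr_deriv ?_
      simp
      ring
    exact e1.add e2
  have hd2 : ∀ x ∈ Ioo (0 : ℝ) 1, HasDerivAt (fun q : ℝ => Real.log (1 - q) - Real.log q +
      4 * (q - 1 / 2)) (-1 / (1 - x) - 1 / x + 4) x := by
    intro x hx
    have e1 : HasDerivAt (fun q : ℝ => Real.log (1 - q)) (-1 / (1 - x)) x :=
      ((hasDerivAt_id x).const_sub 1).log (by simp; linarith [hx.2])
    have e2 : HasDerivAt (fun q : ℝ => Real.log q) (1 / x) x := by
      simpa using Real.hasDerivAt_log hx.1.ne'
    have e3 : HasDerivAt (fun q : ℝ => 4 * (q - 1 / 2)) 4 x := by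
      simpa using ((hasDerivAt_id x).sub_const (1 / 2 : ℝ)).const_mul 4
    exact (e1.sub e2).add e3
  have hde : ∀ x ∈ Ioo (0 : ℝ) 1, deriv (fun q : ℝ => Real.binEntropy q + 2 * (q - 1 / 2) ^ 2) x =
      Real.log (1 - x) - Real.log x + 4 * (x - 1 / 2) := fun x hx => (hd1 x hx).deriv
  have hde2 : ∀ x ∈ Ioo (0 : ℝ) 1,
      HasDerivAt (deriv (fun q : ℝ => Real.binEntropy q + 2 * (q - 1 / 2) ^ 2))
        (-1 / (1 - x) - 1 / x + 4) x := by
    intro x hx
    refine (hd2 x hx).congr_of_eventuallyEq ?_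
    filter_upwards [isOpen_Ioo.mem_nhds hx] with q hq
    exact hde q hq
  have hconc : ConcaveOn ℝ (Icc (0 : ℝ) 1)
      (fun q : ℝ => Real.binEntropy q + 2 * (q - 1 / 2) ^ 2) := by
    apply concaveOn_of_deriv2_nonpos (convex_Icc 0 1)
    · exact (Real.binEntropy_continuous.add (by fun_prop)).continuousOn
    · rw [interior_Icc]
      exact fun x hx => (hd1 x hx).differentiableAt.differentiableWithinAt
    · rw [interior_Icc]
      exact fun x hx => (hde2 x hx).differentiableAt.differentiableWithinAt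
    · rw [interior_Icc]
      intro x hx
      simp only [Function.iterate_succ, Function.iterate_zero, Function.comp_apply, id]
      rw [(hde2 x hx).deriv]
      have hx0 : 0 < x := hx.1
      have hx1 : 0 < 1 - x := by linarith [hx.2]
      have e : -1 / (1 - x) - 1 / x + 4 = -(2 * x - 1) ^ 2 / (x * (1 - x)) := by
        field_simp
        ring
      rw [e]
      apply div_nonpos_of_nonpos_of_nonneg
      · nlinarith [sq_nonneg (2 * x - 1)]
      · positivity
  have hp' : 1 - p ∈ Icc (0 : ℝ) 1 := ⟨by linarith, by linarith⟩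
  have hp : p ∈ Icc (0 : ℝ) 1 := ⟨h0, h1⟩
  have ha : (0 : ℝ) ≤ 1 / 2 := by norm_num
  have hab : (1 / 2 : ℝ) + 1 / 2 = 1 := by norm_num
  have hm := hconc.2 hp hp' ha ha hab
  simp only [smul_eq_mul] at hm
  have e1 : (1 / 2 : ℝ) * p + 1 / 2 * (1 - p) = 2⁻¹ := by ring
  rw [e1, Real.binEntropy_two_inv, Real.binEntropy_one_sub] at hm
  nlinarith

lemma sq_int_le {h : ℝ → ℝ} (hi : ∀ a b : ℝ, IntervalIntegrable h volume a b)
    (hi2 : ∀ a b : ℝ, IntervalIntegrable (fun x => h x ^ 2) volume a b) {y : ℝ}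
    (hy : y ∈ Icc (0 : ℝ) 1) :
    (∫ t in (0 : ℝ)..y, h t) ^ 2 ≤ y * ∫ t in (0 : ℝ)..1, h t ^ 2 := by
  have hmono : ∫ t in (0 : ℝ)..y, h t ^ 2 ≤ ∫ t in (0 : ℝ)..1, h t ^ 2 := by
    rw [← intervalIntegral.integral_add_adjacent_intervals (hi2 0 y) (hi2 y 1)]
    have := intervalIntegral.integral_nonneg (μ := volume) hy.2
      (f := fun t => h t ^ 2) fun t _ => sq_nonneg _
    linarith
  rcases hy.1.eq_or_lt with h0 | h0
  · rw [← h0]; simp
  set S := ∫ t in (0 : ℝ)..y, h t with hS
  have h1 : 0 ≤ ∫ t in (0 : ℝ)..y, (y * h t - S) ^ 2 :=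
    intervalIntegral.integral_nonneg hy.1 fun t _ => sq_nonneg _
  have h2 : ∫ t in (0 : ℝ)..y, (y * h t - S) ^ 2 =
      y ^ 2 * (∫ t in (0 : ℝ)..y, h t ^ 2) - 2 * y * S * S + S ^ 2 * y := by
    have e : ∀ t, (y * h t - S) ^ 2 = y ^ 2 * h t ^ 2 - 2 * y * S * h t + S ^ 2 := by
      intro t; ring
    simp_rw [e]
    rw [intervalIntegral.integral_add (((hi2 0 y).const_mul _).sub ((hi 0 y).const_mul _))
      intervalIntegrable_const,
      intervalIntegral.integral_sub ((hi2 0 y).const_mul _) ((hi 0 y).const_mul _),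
      intervalIntegral.integral_const_mul, intervalIntegral.integral_const_mul, ← hS]
    simp
    ring
  rw [h2] at h1
  have h3 : S ^ 2 ≤ y * ∫ t in (0 : ℝ)..y, h t ^ 2 := by
    have : 0 ≤ y * (y * (∫ t in (0 : ℝ)..y, h t ^ 2) - S ^ 2) := by nlinarith
    have := nonneg_of_mul_nonneg_right this h0
    linarith
  exact h3.trans (mul_le_mul_of_nonneg_left hmono hy.1)

/-- The main inequality. -/
lemma entropy_le {f : ℝ → ℝ} (hf : IsDensity f) :
    entropy f ≤ Real.log 2 - 2 / 3 *
      |rho [true, true, false] f + rho [false, false, true] f - 1 / 4| := by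
  have hc := cdf_continuous hf
  -- the deviation
  have hi : ∀ a b : ℝ, IntervalIntegrable (fun x => f x - 1 / 2) volume a b := fun a b =>
    (hf.intervalIntegrable a b).sub intervalIntegrable_const
  have hi2 : ∀ a b : ℝ, IntervalIntegrable (fun x => (f x - 1 / 2) ^ 2) volume a b := by
    intro a b
    have h : IntervalIntegrable (fun _ : ℝ => (1 : ℝ)) volume a b := intervalIntegrable_const
    refine h.mono_fun ((hf.1.sub measurable_const).pow_const 2).aestronglyMeasurable ?_
    filter_upwards with x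
    rw [Real.norm_of_nonneg (sq_nonneg _), Real.norm_of_nonneg zero_le_one]
    nlinarith [(hf.2 x).1, (hf.2 x).2]
  set E : ℝ := ∫ t in (0 : ℝ)..1, (f t - 1 / 2) ^ 2 with hE
  have hH : ∀ y, cdf f y - y / 2 = ∫ t in (0 : ℝ)..y, (f t - 1 / 2) := by
    intro y
    rw [intervalIntegral.integral_sub (hf.intervalIntegrable _ _) intervalIntegrable_const]
    simp [cdf]
    ring
  have hHle : ∀ y ∈ Icc (0 : ℝ) 1, (cdf f y - y / 2) ^ 2 ≤ y * E := by
    intro y hy
    rw [hH]
    exact sq_int_le hi hi2 hy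
  have hint : ∫ y in (0 : ℝ)..1, (cdf f y - y / 2) ^ 2 ≤ E / 2 := by
    have h1 : ∫ y in (0 : ℝ)..1, (cdf f y - y / 2) ^ 2 ≤ ∫ y in (0 : ℝ)..1, y * E := by
      apply intervalIntegral.integral_mono_on zero_le_one
      · exact Continuous.intervalIntegrable (by fun_prop) _ _
      · exact Continuous.intervalIntegrable (by fun_prop) _ _
      · exact hHle
    have h2 : ∫ y in (0 : ℝ)..1, y * E = E / 2 := by
      rw [intervalIntegral.integral_mul_const, integral_id]
      ring
    linarith
  have hint0 : 0 ≤ ∫ y in (0 : ℝ)..1, (cdf f y - y / 2) ^ 2 :=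
    intervalIntegral.integral_nonneg zero_le_one fun t _ => sq_nonneg _
  have h1 := hHle 1 ⟨zero_le_one, le_refl 1⟩
  have hsum : rho [true, true, false] f + rho [false, false, true] f - 1 / 4 =
      6 * (∫ y in (0 : ℝ)..1, (cdf f y - y / 2) ^ 2) - 3 * (cdf f 1 - 1 / 2) ^ 2 := by
    rw [rho_110 hf, rho_001 hf]
    have e1 : ∫ y in (0 : ℝ)..1, (cdf f y - y / 2) ^ 2 =
        (1 / 2) * (∫ x in (0 : ℝ)..1, cdf f x ^ 2) + (1 / 2) * (∫ x in (0 : ℝ)..1, (x - cdf f x) ^ 2)
          - 1 / 4 * ∫ x in (0 : ℝ)..1, x ^ 2 := by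
      rw [← intervalIntegral.integral_const_mul, ← intervalIntegral.integral_const_mul,
        ← intervalIntegral.integral_const_mul, ← intervalIntegral.integral_add,
        ← intervalIntegral.integral_sub]
      · congr 1
        funext x
        ring
      · exact Continuous.intervalIntegrable (by fun_prop) _ _
      · exact Continuous.intervalIntegrable (by fun_prop) _ _
      · exact Continuous.intervalIntegrable (by fun_prop) _ _
      · exact Continuous.intervalIntegrable (by fun_prop) _ _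
    rw [e1, integral_pow]
    norm_num
    ring
  have hent : entropy f ≤ Real.log 2 - 2 * E := by
    have e1 : ∫ x in (0 : ℝ)..1, (Real.log 2 - 2 * (f x - 1 / 2) ^ 2) = Real.log 2 - 2 * E := by
      rw [intervalIntegral.integral_sub intervalIntegrable_const ((hi2 0 1).const_mul 2),
        intervalIntegral.integral_const_mul]
      simp [hE]
    rw [← e1]
    apply intervalIntegral.integral_mono_on zero_le_one
    · have h : IntervalIntegrable (fun _ : ℝ => Real.log 2) volume 0 1 := intervalIntegrable_const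
      refine h.mono_fun (Real.binEntropy_continuous.measurable.comp hf.1).aestronglyMeasurable ?_
      filter_upwards with x
      rw [Real.norm_of_nonneg (Real.binEntropy_nonneg (hf.2 x).1 (hf.2 x).2),
        Real.norm_of_nonneg (Real.log_nonneg (by norm_num))]
      exact Real.binEntropy_le_log_two
    · exact intervalIntegrable_const.sub ((hi2 0 1).const_mul 2)
    · intro x _
      exact binEntropy_le (hf.2 x).1 (hf.2 x).2
  have habs : |rho [true, true, false] f + rho [false, false, true] f - 1 / 4| ≤ 3 * E := by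
    rw [hsum, abs_le]
    constructor
    · nlinarith
    · nlinarith [sq_nonneg (cdf f 1 - 1 / 2)]
  linarith

/-! ### The point `(1/8, 1/8)` is interior -/

/-- The step function with values `1, 0, 1` on blocks of lengths `u, v, 1 - u - v`. -/
noncomputable def step (u v : ℝ) (x : ℝ) : ℝ := if x ≤ u then 1 else if x ≤ u + v then 0 else 1

lemma step_isDensity (u v : ℝ) : IsDensity (step u v) := by
  refine ⟨?_, fun x => ?_⟩
  · unfold step
    exact Measurable.ite measurableSet_Iic measurable_const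
      (Measurable.ite measurableSet_Iic measurable_const measurable_const)
  · unfold step
    split_ifs <;> norm_num

lemma cdf_step {u v : ℝ} (hu : 0 ≤ u) (hv : 0 ≤ v) (x : ℝ) (hx : 0 ≤ x) :
    cdf (step u v) x = if x ≤ u then x else if x ≤ u + v then u else x - v := by
  have hd := step_isDensity u v
  have h1 : ∀ y, 0 ≤ y → y ≤ u → cdf (step u v) y = y := by
    intro y hy0 hy
    unfold cdf
    have : ∫ t in (0 : ℝ)..y, step u v t = ∫ _t in (0 : ℝ)..y, (1 : ℝ) := by
      apply intervalIntegral.integral_congr_ae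
      filter_upwards with t ht
      rw [uIoc_of_le hy0] at ht
      exact if_pos (ht.2.trans hy)
    rw [this]
    simp
  have h2 : ∀ y, u ≤ y → y ≤ u + v → cdf (step u v) y = u := by
    intro y hy0 hy
    have e := cdf_sub hd u y
    have : ∫ t in u..y, step u v t = ∫ _t in u..y, (0 : ℝ) := by
      apply intervalIntegral.integral_congr_ae
      filter_upwards with t ht
      rw [uIoc_of_le hy0] at ht
      unfold step
      rw [if_neg (not_le.2 ht.1), if_pos (ht.2.trans hy)]
    rw [this, h1 u hu le_rfl] at e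
    simp at e
    linarith
  have h3 : ∀ y, u + v ≤ y → cdf (step u v) y = y - v := by
    intro y hy0
    have e := cdf_sub hd (u + v) y
    have : ∫ t in (u + v)..y, step u v t = ∫ _t in (u + v)..y, (1 : ℝ) := by
      apply intervalIntegral.integral_congr_ae
      filter_upwards with t ht
      rw [uIoc_of_le hy0] at ht
      unfold step
      rw [if_neg (not_le.2 (lt_of_le_of_lt (by linarith) ht.1)), if_neg (not_le.2 ht.1)]
    rw [this, h2 (u + v) (by linarith) le_rfl] at e
    simp at e
    linarith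
  split_ifs with a b
  · exact h1 x hx a
  · exact h2 x (not_le.1 a).le b
  · exact h3 x (not_le.1 b).le

lemma int_step (φ : ℝ → ℝ → ℝ) {u v : ℝ} (hu : 0 ≤ u) (hv : 0 ≤ v) (huv : u + v ≤ 1)
    (hφ : Continuous fun q : ℝ × ℝ => φ q.1 q.2) :
    ∫ x in (0 : ℝ)..1, φ x (cdf (step u v) x) =
      (∫ x in (0 : ℝ)..u, φ x x) + (∫ x in u..(u + v), φ x u) + ∫ x in (u + v)..1, φ x (x - v) := by
  have hc := cdf_continuous (step_isDensity u v)
  have hc' : Continuous fun x => φ x (cdf (step u v) x) :=
    hφ.comp (continuous_id.prodMk hc)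
  have hI : ∀ a b : ℝ, IntervalIntegrable (fun x => φ x (cdf (step u v) x)) volume a b :=
    fun a b => hc'.intervalIntegrable a b
  rw [← intervalIntegral.integral_add_adjacent_intervals (hI 0 (u + v)) (hI (u + v) 1),
    ← intervalIntegral.integral_add_adjacent_intervals (hI 0 u) (hI u (u + v))]
  congr 1
  · congr 1
    · apply intervalIntegral.integral_congr
      intro x hx
      rw [uIcc_of_le hu] at hx
      simp only
      rw [cdf_step hu hv x hx.1, if_pos hx.2]
    · apply intervalIntegral.integral_congr_ae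
      filter_upwards with x hx
      rw [uIoc_of_le (by linarith)] at hx
      rw [cdf_step hu hv x (hu.trans hx.1.le), if_neg (not_le.2 hx.1), if_pos hx.2]
  · apply intervalIntegral.integral_congr_ae
    filter_upwards with x hx
    rw [uIoc_of_le huv] at hx
    rw [cdf_step hu hv x (by linarith [hx.1]), if_neg (not_le.2 (by linarith [hx.1])),
      if_neg (not_le.2 hx.1)]

lemma rho_step {u v : ℝ} (hu : 0 ≤ u) (hv : 0 ≤ v) (huv : u + v ≤ 1) :
    rho [true, true, false] (step u v) = 3 * u ^ 2 * v ∧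
    rho [false, false, true] (step u v) = 3 * v ^ 2 * (1 - u - v) := by
  have hd := step_isDensity u v
  have h1 : cdf (step u v) 1 = 1 - v := by
    rw [cdf_step hu hv 1 zero_le_one]
    split_ifs with a b
    · linarith
    · linarith
    · rfl
  have i1 : ∫ x in (0 : ℝ)..1, cdf (step u v) x ^ 2 =
      u ^ 3 / 3 + u ^ 2 * v + ((1 - v) ^ 3 - u ^ 3) / 3 := by
    rw [int_step (fun _ y => y ^ 2) hu hv huv (by fun_prop)]
    have e3 : ∫ x in (u + v)..1, (x - v) ^ 2 = ((1 - v) ^ 3 - u ^ 3) / 3 := by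
      rw [intervalIntegral.integral_comp_sub_right (fun x => x ^ 2) v, integral_pow]
      norm_num
    rw [e3, integral_pow]
    simp
    ring
  have i2 : ∫ x in (0 : ℝ)..1, (x - cdf (step u v) x) ^ 2 =
      v ^ 3 / 3 + v ^ 2 * (1 - u - v) := by
    rw [int_step (fun x y => (x - y) ^ 2) hu hv huv (by fun_prop)]
    have e2 : ∫ x in u..(u + v), (x - u) ^ 2 = v ^ 3 / 3 := by
      rw [intervalIntegral.integral_comp_sub_right (fun x => x ^ 2) u, integral_pow]
      norm_num
    rw [e2]
    simp
    ring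
  constructor
  · rw [rho_110 hd, i1, h1]
    ring
  · rw [rho_001 hd, i2, h1]
    ring

/-- The list of the two words. -/
abbrev W : List (List Bool) := [[true, true, false], [false, false, true]]

/-- The point. -/
noncomputable def δ₀ : Fin W.length → ℝ := fun _ => 1 / 8

lemma exists_step {a b : ℝ} (ha : |a - 1 / 8| < 1 / 1000) (hb : |b - 1 / 8| < 1 / 1000) :
    ∃ f, IsDensity f ∧ rho [true, true, false] f = a ∧ rho [false, false, true] f = b := by
  rw [abs_lt] at ha hb
  have hcont : ContinuousOn (fun v : ℝ => v + √(a / (3 * v)) + b / (3 * v ^ 2))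
      (Icc (3 / 10) (1 / 2)) := by
    have h0 : ∀ v ∈ Icc (3 / 10 : ℝ) (1 / 2), (3 : ℝ) * v ≠ 0 := by
      intro v hv
      have : 0 < v := by linarith [hv.1]
      positivity
    have h0' : ∀ v ∈ Icc (3 / 10 : ℝ) (1 / 2), (3 : ℝ) * v ^ 2 ≠ 0 := by
      intro v hv
      have : 0 < v := by linarith [hv.1]
      positivity
    exact (continuousOn_id.add ((continuousOn_const.div (by fun_prop) h0).sqrt)).add
      (continuousOn_const.div (by fun_prop) h0')
  have hend : (1 : ℝ) ∈ Icc ((1 / 2 : ℝ) + √(a / (3 * (1 / 2))) + b / (3 * (1 / 2) ^ 2))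
      ((3 / 10 : ℝ) + √(a / (3 * (3 / 10))) + b / (3 * (3 / 10) ^ 2)) := by
    constructor
    · have h1 : √(a / (3 * (1 / 2))) ≤ 3 / 10 := by
        rw [Real.sqrt_le_left (by norm_num)]
        rw [div_le_iff₀ (by norm_num)]
        linarith
      have h2 : b / (3 * (1 / 2) ^ 2) ≤ 2 / 10 := by
        rw [div_le_iff₀ (by norm_num)]
        linarith
      linarith
    · have h1 : 3 / 10 ≤ √(a / (3 * (3 / 10))) := by
        apply Real.le_sqrt_of_sq_le
        rw [le_div_iff₀ (by norm_num)]
        linarith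
      have h2 : 4 / 10 ≤ b / (3 * (3 / 10) ^ 2) := by
        rw [le_div_iff₀ (by norm_num)]
        linarith
      linarith
  obtain ⟨v, hv, hv1⟩ := intermediate_value_Icc' (by norm_num : (3 / 10 : ℝ) ≤ 1 / 2) hcont hend
  have hv0 : 0 < v := by linarith [hv.1]
  simp only at hv1
  have hw : 0 ≤ b / (3 * v ^ 2) := by
    apply div_nonneg (by linarith)
    positivity
  refine ⟨step (√(a / (3 * v))) v, step_isDensity _ _, ?_⟩
  have h := rho_step (u := √(a / (3 * v))) (v := v) (Real.sqrt_nonneg _) hv0.le (by linarith)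
  rw [h.1, h.2, Real.sq_sqrt (div_nonneg (by linarith) (by positivity))]
  constructor
  · field_simp
  · have : 1 - √(a / (3 * v)) - v = b / (3 * v ^ 2) := by linarith
    rw [this]
    field_simp

lemma mem_feasible {δ : Fin W.length → ℝ} (h : ∀ i, |δ i - 1 / 8| < 1 / 1000) :
    δ ∈ feasible W := by
  obtain ⟨f, hf, h1, h2⟩ := exists_step (h 0) (h 1)
  refine ⟨f, hf, fun i => ?_⟩
  fin_cases i
  · exact h1.symm
  · exact h2.symm

lemma mem_interior : δ₀ ∈ interior (feasible W) := by
  rw [mem_interior_iff_mem_nhds, Metric.mem_nhds_iff]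
  refine ⟨1 / 1000, by norm_num, fun δ hδ => mem_feasible fun i => ?_⟩
  have h1 : dist (δ i) (δ₀ i) ≤ dist δ δ₀ := dist_le_pi_dist δ δ₀ i
  rw [Metric.mem_ball] at hδ
  rw [Real.dist_eq] at h1
  exact lt_of_le_of_lt h1 hδ

lemma entropyFun_le {δ : Fin W.length → ℝ} (hδ : δ ∈ feasible W) :
    entropyFun W δ ≤ Real.log 2 - 2 / 3 * |δ 0 + δ 1 - 1 / 4| := by
  apply csSup_le
  · obtain ⟨f, hf, h⟩ := hδ
    exact ⟨entropy f, f, hf, fun i => (h i).symm, rfl⟩
  · rintro e ⟨f, hf, h, rfl⟩
    have h0 : rho [true, true, false] f = δ 0 := h 0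
    have h1 : rho [false, false, true] f = δ 1 := h 1
    have := entropy_le hf
    rwa [h0, h1] at this

lemma entropyFun_eq : entropyFun W δ₀ = Real.log 2 := by
  have hd : IsDensity (fun _ : ℝ => (1 / 2 : ℝ)) := ⟨measurable_const, fun x => by norm_num⟩
  have hcdf : ∀ x, cdf (fun _ : ℝ => (1 / 2 : ℝ)) x = x / 2 := by
    intro x
    simp [cdf]
    ring
  have h1 : rho [true, true, false] (fun _ : ℝ => (1 / 2 : ℝ)) = 1 / 8 := by
    rw [rho_110 hd]
    simp only [hcdf, div_pow]
    rw [intervalIntegral.integral_div, integral_pow]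
    norm_num
  have h2 : rho [false, false, true] (fun _ : ℝ => (1 / 2 : ℝ)) = 1 / 8 := by
    rw [rho_001 hd]
    have h3 : ∀ x : ℝ, (x - x / 2) ^ 2 = x ^ 2 / 4 := by
      intro x
      ring
    simp only [hcdf, h3]
    rw [intervalIntegral.integral_div, integral_pow]
    norm_num
  have hr : ∀ i : Fin W.length, rho (W.get i) (fun _ : ℝ => (1 / 2 : ℝ)) = δ₀ i := by
    intro i
    fin_cases i
    · exact h1
    · exact h2
  have he : entropy (fun _ : ℝ => (1 / 2 : ℝ)) = Real.log 2 := by
    unfold entropy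
    have h3 : Real.binEntropy (1 / 2 : ℝ) = Real.log 2 := by
      rw [one_div]
      exact Real.binEntropy_two_inv
    simp only [h3]
    simp
  apply le_antisymm
  · have := entropyFun_le (δ := δ₀) (interior_subset mem_interior)
    have h3 : (0 : ℝ) ≤ 2 / 3 * |δ₀ 0 + δ₀ 1 - 1 / 4| := by positivity
    linarith
  · have hb : BddAbove {e | ∃ f, IsDensity f ∧ (∀ i, rho (W.get i) f = δ₀ i) ∧ e = entropy f} := by
      refine ⟨Real.log 2, ?_⟩
      rintro e ⟨f, hf, -, rfl⟩
      have := entropy_le hf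
      have h3 : (0 : ℝ) ≤ 2 / 3 * |rho [true, true, false] f + rho [false, false, true] f - 1 / 4| := by
        positivity
      linarith
    exact le_csSup hb ⟨_, hd, hr, he.symm⟩

/-- There is a finite list `W` of distinct nonempty binary words (namely `110, 001`) and a point in
the interior of its feasibility set at which the entropy function of `W` is not real-analytic. -/
theorem result : ∃ W : List (List Bool), W.Nodup ∧ (∀ w ∈ W, w ≠ []) ∧
    ∃ δ ∈ interior (feasible W), ¬ AnalyticAt ℝ (entropyFun W) δ := by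
  refine ⟨W, by decide, by decide, δ₀, mem_interior, ?_⟩
  intro han
  have hdiff := han.differentiableAt
  let c : ℝ → (Fin W.length → ℝ) := fun t i => 1 / 8 + t
  have hc : HasDerivAt c (fun _ => 1) 0 := by
    rw [hasDerivAt_pi]
    intro i
    exact (hasDerivAt_id (0 : ℝ)).const_add (1 / 8)
  have hc0 : c 0 = δ₀ := by
    funext i
    simp [c, δ₀]
  have hφ : HasDerivAt (fun t => entropyFun W (c t)) (fderiv ℝ (entropyFun W) δ₀ fun _ => 1) 0 := by
    have h1 : HasFDerivAt (entropyFun W) (fderiv ℝ (entropyFun W) δ₀) (c 0) := by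
      rw [hc0]
      exact hdiff.hasFDerivAt
    exact h1.comp_hasDerivAt 0 hc
  have hle : ∀ t : ℝ, |t| < 1 / 1000 → entropyFun W (c t) ≤ Real.log 2 - 4 / 3 * |t| := by
    intro t ht
    have h1 := entropyFun_le (δ := c t) (mem_feasible fun i => by
      simp only [c]
      rwa [add_sub_cancel_left])
    have h2 : c t 0 + c t 1 - 1 / 4 = 2 * t := by
      simp only [c]
      ring
    rw [h2, abs_mul, abs_two] at h1
    linarith
  have hmax : IsLocalMax (fun t => entropyFun W (c t)) 0 := by
    have : ∀ᶠ t in nhds (0 : ℝ), |t| < 1 / 1000 := by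
      have := Metric.ball_mem_nhds (0 : ℝ) (by norm_num : (0 : ℝ) < 1 / 1000)
      filter_upwards [this] with t ht
      simpa [Real.dist_eq] using ht
    filter_upwards [this] with t ht
    have h1 := hle t ht
    simp only [hc0, entropyFun_eq]
    have := abs_nonneg t
    linarith
  have hL := hmax.hasDerivAt_eq_zero hφ
  rw [hL] at hφ
  have ho := (hasDerivAt_iff_isLittleO.1 hφ).def (by norm_num : (0 : ℝ) < 1 / 2)
  have hex : ∃ t : ℝ, t ≠ 0 ∧ |t| < 1 / 1000 ∧
      ‖entropyFun W (c t) - entropyFun W (c 0) - (t - 0) • (0 : ℝ)‖ ≤ 1 / 2 * ‖t - 0‖ := by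
    have h1 : ∀ᶠ t in nhdsWithin (0 : ℝ) {0}ᶜ, t ≠ 0 ∧ |t| < 1 / 1000 ∧
        ‖entropyFun W (c t) - entropyFun W (c 0) - (t - 0) • (0 : ℝ)‖ ≤ 1 / 2 * ‖t - 0‖ := by
      filter_upwards [self_mem_nhdsWithin, mem_nhdsWithin_of_mem_nhds
        (Metric.ball_mem_nhds (0 : ℝ) (by norm_num : (0 : ℝ) < 1 / 1000)),
        mem_nhdsWithin_of_mem_nhds ho] with t h1 h2 h3
      exact ⟨h1, by simpa [Real.dist_eq] using h2, h3⟩
    exact h1.exists
  obtain ⟨t, ht0, ht, hto⟩ := hex
  rw [hc0, entropyFun_eq, smul_zero, sub_zero, sub_zero, Real.norm_eq_abs, Real.norm_eq_abs] at hto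
  have h1 := hle t ht
  have h2 := neg_abs_le (entropyFun W (c t) - Real.log 2)
  have h3 := abs_pos.2 ht0
  linarith

end Pool.Agent.Results.MP_8f0a23_co.NotAnalytic
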